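import Pool.Agent.W622.ETC.Stm

/-!
# Project ELT, part ES2: the support of a primitive form lies in a component
-/

set_option autoImplicit false

namespace Pool.Agent.W327.ELT

open Module Pool.Agent.W622.ETC

theorem t_ES2 (hSPLIT : S_SPLIT) : S_ES2 := by
  intro V _ _ _ A s ω hA hs hω
  obtain ⟨hωA, hω0, hprim⟩ := hω
  have key : ∀ n : ℕ, ∀ t : Set (DSub V), t ⊆ s → t.ncard = n → (∀ a, ω a ∈ sSup t) →
      ∃ X ∈ s, sp ω ≤ X := by
    intro n
    induction n with
    | zero =>
      intro t _ hn h
      rw [Set.ncard_eq_zero (Set.toFinite t)] at hn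
      exfalso
      apply hω0
      ext a : 1
      have h1 := h a
      rw [hn, sSup_empty, Submodule.mem_bot] at h1
      rw [h1]
      rfl
    | succ n ih =>
      intro t hts hn h
      obtain ⟨X, hX⟩ : t.Nonempty := by
        rw [Set.nonempty_iff_ne_empty]
        rintro rfl
        simp at hn
      have hct : Comps (res A (sSup t)) t := (hSPLIT V A s t hA hs hts).2.2
      obtain ⟨h1, h2, -⟩ := hSPLIT V (res A (sSup t)) t {X} (hA.res _) hct
        (Set.singleton_subset_iff.2 hX)
      have hmem : ω ∈ res A (sSup t) := ⟨hωA, h⟩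
      rw [h1, Submodule.mem_sup] at hmem
      obtain ⟨η, hη, ζ, hζ, hsum⟩ := hmem
      rw [sSup_singleton] at hη h2
      have hspη : sp η ≤ sp ω := by
        rw [← hsum]
        have hd : Disjoint (sp η) (sp ζ) :=
          h2.mono (sp_le.2 hη.2) (sp_le.2 hζ.2)
        rw [sp_add (hA _ hη.1.1) (hA _ hζ.1.1) hd]
        exact le_sup_left
      rcases hprim η hη.1.1 hspη with h3 | h3
      · have h4 : ζ = ω := by rw [← hsum, h3, zero_add]
        refine ih (t \ {X}) (Set.sdiff_subset.trans hts) ?_ ?_
        · rw [Set.ncard_sdiff_singleton_of_mem hX, hn]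
          rfl
        · intro a
          rw [← h4]
          exact hζ.2 a
      · exact ⟨X, hts hX, by rw [← h3]; exact sp_le.2 hη.2⟩
  refine key _ s le_rfl rfl ?_
  have h1 : A ≤ res A (sSup s) := by
    conv_lhs => rw [hs.2.1]
    exact iSup₂_le fun X hX => res_mono A (le_sSup hX)
  exact (h1 hωA).2

end Pool.Agent.W327.ELT
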